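import Pool.Agent.H99.HN.Targets
import Pool.Agent.H99.HM.Main

/-!
# Module FINR of the HN project (MP_6a9259_mp): final contradiction
-/

set_option autoImplicit false

namespace Pool.Agent.H10.HN

open Pool.Agent.H99.HM Pool.Agent.H99.HN
open MeasureTheory Set Filter Topology Real

/-- the logarithmic derivative minus `1/r` is bounded -/
lemma l_bound {s s1 : ℝ → ℝ} (hs : Ext 0 0 s s1) :
    ∃ L : ℝ, 0 < L ∧ ∀ r, 0 < r → |s1 r / s r - 1 / r| ≤ L := by
  obtain ⟨c, C, hc, hC, hnear⟩ := (Main.facts 0 0 s s1 hs).near0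
  obtain ⟨C', hC', hlog⟩ := (Main.facts 0 0 s s1 hs).logder
  obtain ⟨-, -, hK2⟩ := Main.K2 0 0 s s1 hs
  have F := Main.facts 0 0 s s1 hs
  refine ⟨136 / c + (C' + 1), by positivity, fun r hr => ?_⟩
  have hspos := hs.pos r hr
  rcases le_or_gt r 1 with h1 | h1
  · -- near zero
    have e1 : s r = ∫ t in (0 : ℝ)..r, s1 t := (F.vg r hr.le).symm
    have e2 : s r - r * s1 0 = ∫ t in (0 : ℝ)..r, (s1 t - s1 0) := by
      rw [intervalIntegral.integral_sub, ← e1, intervalIntegral.integral_const]
      · simp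
      · apply ContinuousOn.intervalIntegrable
        rw [uIcc_of_le hr.le]
        exact hs.cont1.mono fun t ht => ht.1
      · exact intervalIntegrable_const
    have e3 : |s r - r * s1 0| ≤ 68 * r * |r - 0| := by
      rw [e2, ← Real.norm_eq_abs]
      apply intervalIntegral.norm_integral_le_of_norm_le_const
      intro t ht
      rw [uIoc_of_le hr.le] at ht
      have := (hK2 t ⟨ht.1.le, ht.2.trans h1⟩).1
      rw [Real.norm_eq_abs]
      refine this.trans ?_
      have := ht.2
      linarith
    rw [sub_zero, abs_of_pos hr] at e3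
    have e4 : |r * s1 r - r * s1 0| ≤ 68 * r * r := by
      rw [← mul_sub, abs_mul, abs_of_pos hr]
      have := (hK2 r ⟨hr.le, h1⟩).1
      nlinarith
    have e5 : |r * s1 r - s r| ≤ 136 * r * r := by
      have : r * s1 r - s r = (r * s1 r - r * s1 0) - (s r - r * s1 0) := by ring
      rw [this]
      refine (abs_sub _ _).trans ?_
      linarith
    have e6 : s1 r / s r - 1 / r = (r * s1 r - s r) / (s r * r) := by
      field_simp
    have h2 := (hnear r ⟨hr.le, h1⟩).1
    have e7 : |s1 r / s r - 1 / r| ≤ 136 / c := by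
      rw [e6, abs_div, abs_of_pos (mul_pos hspos hr), div_le_div_iff₀ (mul_pos hspos hr) hc]
      have h3 : c * r * r ≤ s r * r := mul_le_mul_of_nonneg_right h2 hr.le
      calc |r * s1 r - s r| * c ≤ 136 * r * r * c := mul_le_mul_of_nonneg_right e5 hc.le
        _ = 136 * (c * r * r) := by ring
        _ ≤ 136 * (s r * r) := by linarith
    linarith
  · have h2 := hlog r h1.le
    have e1 : |s1 r / s r| ≤ C' := by
      rw [abs_div, abs_of_pos hspos, div_le_iff₀ hspos]
      exact h2
    have e2 : |1 / r| ≤ 1 := by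
      rw [abs_of_pos (by positivity), div_le_one hr]
      exact h1.le
    have e3 : 0 < 136 / c := by positivity
    refine (abs_sub _ _).trans ?_
    linarith

/-- the two potentials -/
lemma phi_eq {s s1 : ℝ → ℝ} (hs : Ext 0 0 s s1)
    (hJ : ∀ r, 0 < r → IntegrableOn (fun t => (Mf s - Sf s t) / t ^ 2) (Ioi r)) (r : ℝ)
    (hr : 0 < r) : phi 0 s r = Jf s r - (Mf s - 1) / r := by
  have F := Main.facts 0 0 s s1 hs
  have i1 : IntegrableOn (fun t => (1 - Sf s t) / t ^ 2) (Ioi r) := by
    have := F.phiInt r hr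
    simpa using this
  have e0 : phi 0 s r = ∫ t in Ioi r, (1 - Sf s t) / t ^ 2 := by
    unfold phi
    simp
  have e1 : Jf s r - phi 0 s r = ∫ t in Ioi r, (Mf s - 1) * (t ^ 2)⁻¹ := by
    rw [e0]
    unfold Jf
    rw [← integral_sub (hJ r hr) i1]
    refine setIntegral_congr_fun measurableSet_Ioi fun t ht => ?_
    have : (t : ℝ) ≠ 0 := (hr.trans ht).ne'
    field_simp
    ring
  have e2 : ∫ t in Ioi r, (t ^ 2)⁻¹ = 1 / r := by
    have h1 := integral_Ioi_rpow_of_lt (a := -2) (by norm_num) hr
    have h2 : ∫ t in Ioi r, (t ^ 2)⁻¹ = ∫ t in Ioi r, t ^ (-2 : ℝ) := by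
      refine setIntegral_congr_fun measurableSet_Ioi fun t ht => ?_
      have : (0 : ℝ) < t := hr.trans ht
      rw [Real.rpow_neg this.le]
      norm_num
    rw [h2, h1]
    norm_num
    rw [Real.rpow_neg_one]
  rw [integral_const_mul, e2] at e1
  have e3 : (Mf s - 1) * (1 / r) = (Mf s - 1) / r := by ring
  rw [e3] at e1
  linarith

theorem FINR (hja : T_ja) (hkf : T_kf) (htr : T_trunc) : T_finr := by
  intro s s1 hs ν κ h h1 A η hκ hF hH hb
  have F := Main.facts 0 0 s s1 hs
  obtain ⟨j1, j2, j3, -⟩ := hja s s1 hs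
  have hM : 0 < Mf s := F.mpos
  have := hF.fin
  -- elementary facts
  have hone : ∀ r, 0 ≤ r → 1 ≤ h r := fun r hr => by
    rw [← hH.h0]
    exact hH.mono (mem_Ici.2 le_rfl) (mem_Ici.2 hr) hr
  have hspos : ∀ r, 0 < r → 0 < s r := hs.pos
  have h1nn : ∀ r, 0 < r → 0 ≤ h1 r := fun r hr => by
    rw [hH.eq1 r hr]
    have := hH.Ann r hr
    have := hspos r hr
    positivity
  have hMult : Mult h h1 := by
    refine ⟨fun r hr => ?_, ?_, hH.cont, hH.cont1, hH.der, hH.h10, fun r hr => ?_⟩
    · linarith [hone r hr.le]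
    · linarith [hone 0 le_rfl]
    · rw [abs_of_nonneg (mul_nonneg hr.le (h1nn r hr))]
      exact hb r hr
  obtain ⟨C, hC, hgr, -⟩ := htr h h1 hMult
  obtain ⟨L, hL, hl⟩ := l_bound hs
  -- the measure lives on `(0,∞)`
  have hpos : ∀ᵐ r ∂ν, 0 < r := by
    rw [ae_iff]
    have e : {a : ℝ | ¬ 0 < a} = Iic 0 := by
      ext x
      simp
    rw [e]
    exact hF.supp
  have hres : ν.restrict (Ioi 0) = ν := by
    rw [Measure.restrict_eq_self_of_ae_mem]
    exact hpos
  have hmeas : ∀ f : ℝ → ℝ, ContinuousOn f (Ioi 0) → AEStronglyMeasurable f ν := by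
    intro f hf
    rw [← hres]
    exact hf.aestronglyMeasurable measurableSet_Ioi
  have hhc : ContinuousOn h (Ioi 0) := hH.cont.mono Ioi_subset_Ici_self
  have hgr' : ∀ r, 0 < r → |h r| ≤ C * (1 + r ^ 3) := fun r hr => by
    rw [abs_of_pos (hMult.pos r hr)]
    exact (hgr r hr.le).1
  -- `h/t` is integrable
  have hint : Integrable (fun t => h t / t) ν := by
    have i1 : Integrable (fun t : ℝ => C * (1 / t + t ^ 2)) ν := (hF.inv.add (hF.mom 2)).const_mul C
    refine i1.mono' (hmeas _ ?_) ?_
    · exact hhc.div continuousOn_id fun r hr => (mem_Ioi.1 hr).ne'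
    · filter_upwards [hpos] with r hr
      rw [Real.norm_eq_abs, abs_div, abs_of_pos hr, div_le_iff₀ hr]
      refine (hgr' r hr).trans (le_of_eq ?_)
      field_simp
  set V0 : ℝ := ∫ t, h t / t ∂ν with hV0
  set K : ℝ := ∫ t, Jf s t * h t ∂ν with hK
  -- the potential of `h`
  have hVint : ∀ r, 0 < r → Integrable (fun t => h t / max r t) ν := by
    intro r hr
    refine hint.mono' (hmeas _ ?_) ?_
    · refine hhc.div (continuous_const.max continuous_id).continuousOn fun t ht => ?_
      exact (lt_max_of_lt_left hr).ne'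
    · filter_upwards [hpos] with t ht
      have h2 : 0 < max r t := lt_max_of_lt_left hr
      rw [Real.norm_eq_abs, abs_div, abs_of_pos h2, abs_of_pos (hMult.pos t ht)]
      exact div_le_div_of_nonneg_left (hMult.pos t ht).le ht (le_max_right _ _)
  have hetaV : ∀ r, 0 < r → η r = -K / Mf s + (V0 - ∫ t, h t / max r t ∂ν) := by
    intro r hr
    rw [hH.etadef r hr, hV0, ← integral_sub hint (hVint r hr)]
    congr 1
    rw [← integral_indicator measurableSet_Iio]
    refine integral_congr_ae ?_
    filter_upwards [hpos] with t ht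
    by_cases htr : t < r
    · rw [indicator_of_mem (mem_Iio.2 htr), max_eq_left htr.le]
      ring
    · rw [indicator_of_notMem (by simpa using htr), max_eq_right (not_lt.1 htr)]
      ring
  have hVnn : ∀ r, 0 < r → 0 ≤ ∫ t, h t / max r t ∂ν := by
    intro r hr
    refine integral_nonneg_of_ae ?_
    filter_upwards [hpos] with t ht
    have h2 : 0 < max r t := lt_max_of_lt_left hr
    exact div_nonneg (hMult.pos t ht).le h2.le
  have hVle : ∀ r, 0 < r → ∫ t, h t / max r t ∂ν ≤ V0 := by
    intro r hr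
    refine integral_mono_ae (hVint r hr) hint ?_
    filter_upwards [hpos] with t ht
    exact div_le_div_of_nonneg_left (hMult.pos t ht).le ht (le_max_right _ _)
  have hV0nn : 0 ≤ V0 := (hVnn 1 one_pos).trans (hVle 1 one_pos)
  obtain ⟨E, hE, heta⟩ : ∃ E : ℝ, 0 ≤ E ∧ ∀ r, 0 < r → |η r| ≤ E := by
    refine ⟨|K / Mf s| + V0, by positivity, fun r hr => ?_⟩
    rw [hetaV r hr, neg_div]
    refine (abs_add_le _ _).trans ?_
    rw [abs_neg]
    have := hVnn r hr
    have := hVle r hr
    have h3 : |V0 - ∫ t, h t / max r t ∂ν| ≤ V0 := by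
      rw [abs_of_nonneg (by linarith)]
      linarith
    linarith
  -- the flux
  set l : ℝ → ℝ := fun r => s1 r / s r - 1 / r with hldef
  set B : ℝ → ℝ := fun r => -h r * l r - h1 r / 2 with hBdef
  set B1 : ℝ → ℝ := fun r => -h1 r * l r + h r * (phi 0 s r + l r ^ 2 + 2 * l r / r) + η r +
    h1 r * (s1 r / s r) with hB1def
  have hder : ∀ r, 0 < r → HasDerivAt B (B1 r) r := by
    intro r hr
    have hsr := (hspos r hr).ne'
    have d1 : HasDerivAt s (s1 r) r := hs.der r hr
    have d2 : HasDerivAt s1 ((0 - phi 0 s r) * s r) r := hs.der1 r hr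
    have d3 : HasDerivAt l ((((0 - phi 0 s r) * s r) * s r - s1 r * s1 r) / s r ^ 2
        - (0 * r - 1 * 1) / r ^ 2) r :=
      (d2.div d1 hsr).sub ((hasDerivAt_const r (1 : ℝ)).div (hasDerivAt_id r) hr.ne')
    have d4 : HasDerivAt h1 ((2 * (-(η r * (4 * π * s r ^ 2))) * (4 * π * s r ^ 2)
        - 2 * A r * (4 * π * (2 * s r * s1 r))) / (4 * π * s r ^ 2) ^ 2) r := by
      have e1 : HasDerivAt (fun r => 2 * A r / (4 * π * s r ^ 2))
        ((2 * (-(η r * (4 * π * s r ^ 2))) * (4 * π * s r ^ 2)
        - 2 * A r * (4 * π * (2 * s r * s1 r))) / (4 * π * s r ^ 2) ^ 2) r := by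
        have e2 : HasDerivAt (fun r => 4 * π * s r ^ 2) (4 * π * (2 * s r * s1 r)) r := by
          have := (d1.pow 2).const_mul (4 * π)
          refine this.congr_deriv ?_
          simp
        exact ((hH.Ader r hr).const_mul 2).div e2 (by positivity)
      refine e1.congr_of_eventuallyEq ?_
      filter_upwards [Ioi_mem_nhds hr] with x hx
      exact hH.eq1 x hx
    have d5 : HasDerivAt B (-(h1 r) * l r + -h r * ((((0 - phi 0 s r) * s r) * s r - s1 r * s1 r) / s r ^ 2
        - (0 * r - 1 * 1) / r ^ 2) - ((2 * (-(η r * (4 * π * s r ^ 2))) * (4 * π * s r ^ 2)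
        - 2 * A r * (4 * π * (2 * s r * s1 r))) / (4 * π * s r ^ 2) ^ 2) / 2) r :=
      ((hH.der r hr).neg.mul d3).sub (d4.div_const 2)
    refine d5.congr_deriv ?_
    rw [hB1def]
    simp only [hldef]
    rw [hH.eq1 r hr]
    have hpi : (π : ℝ) ≠ 0 := Real.pi_ne_zero
    field_simp
    ring
  have hlc : ContinuousOn l (Ioi 0) := by
    refine ContinuousOn.sub (ContinuousOn.div (hs.cont1.mono Ioi_subset_Ici_self)
      (F.contS.mono Ioi_subset_Ici_self) fun r hr => (hspos r hr).ne') ?_
    exact continuousOn_const.div continuousOn_id fun r hr => (mem_Ioi.1 hr).ne'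
  have hphic : ContinuousOn (phi 0 s) (Ioi 0) := fun r hr =>
    (F.phiDer r hr).continuousAt.continuousWithinAt
  have hh1c : ContinuousOn h1 (Ioi 0) := hH.cont1.mono Ioi_subset_Ici_self
  have hB1c : ContinuousOn B1 (Ioi 0) := by
    refine ContinuousOn.add (ContinuousOn.add (ContinuousOn.add ?_ ?_) hH.etacont) ?_
    · exact hh1c.neg.mul hlc
    · refine hhc.mul ((hphic.add (hlc.pow 2)).add ?_)
      exact (continuousOn_const.mul hlc).div continuousOn_id fun r hr => (mem_Ioi.1 hr).ne'
    · exact hh1c.mul (ContinuousOn.div (hs.cont1.mono Ioi_subset_Ici_self)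
        (F.contS.mono Ioi_subset_Ici_self) fun r hr => (hspos r hr).ne')
  have hKf : ∀ r, 0 < r → Kf h h1 B B1 r = h r * Jf s r - Mf s * (h r / r) + η r := by
    intro r hr
    have hh := (hMult.pos r hr).ne'
    have hsr := (hspos r hr).ne'
    unfold Kf
    simp only [hBdef, hB1def]
    have e1 : (-h r * l r - h1 r / 2 + h1 r / 2) ^ 2 / h r = h r * l r ^ 2 := by
      field_simp
      ring
    rw [e1, phi_eq hs j1 r hr]
    have e2 : s1 r / s r = l r + 1 / r := by simp only [hldef]; ring
    rw [e2]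
    field_simp
    ring
  have hFlux : Flux h h1 B B1 := by
    have hp : ∀ r : ℝ, 0 < r → (1 : ℝ) ≤ 1 / r + r ^ 3 ∧ r ^ 2 ≤ 1 / r + r ^ 3 ∧
        r ≤ 1 / r + r ^ 3 ∧ 1 / r ≤ 1 / r + r ^ 3 ∧ r ^ 2 ≤ 1 + r ^ 3 ∧ r ^ 3 ≤ 1 / r + r ^ 3 := by
      intro r hr
      have a1 : 0 < 1 / r := by positivity
      have a2 : 0 < r ^ 3 := by positivity
      rcases le_or_gt r 1 with h2 | h2
      · have a3 : 1 ≤ 1 / r := by rw [le_div_iff₀ hr]; linarith
        have a4 : r ^ 2 ≤ 1 := by nlinarith
        refine ⟨by linarith, by linarith, by linarith, by linarith, by linarith, by linarith⟩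
      · have a3 : r ^ 2 ≤ r ^ 3 := by nlinarith [sq_nonneg r]
        have a4 : r ≤ r ^ 2 := by nlinarith
        refine ⟨by linarith, by linarith, by linarith, by linarith, by linarith, by linarith⟩
    have hl2 : ∀ r, 0 < r → l r ^ 2 ≤ L ^ 2 := fun r hr => by
      have := hl r hr
      exact sq_le_sq' (by linarith [neg_abs_le (l r), abs_le.1 this]) ((le_abs_self _).trans this)
    refine ⟨⟨hder, hB1c⟩, ⟨L * C + C, 3, fun r hr => ?_⟩,
      ⟨C * (1 + Mf s) * 2 + L ^ 2 * C * 2 + 2 * L * C * 2 + E + 2 * C, 3, fun r hr => ?_⟩, ⟨L ^ 2 * C * 2, 3, fun r hr => ?_⟩⟩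
    · -- Gr B
      have b1 := hgr' r hr
      have b2 := hl r hr
      have b3 := (hgr r hr.le).2
      obtain ⟨p1, p2, p3, p4, p5, p6⟩ := hp r hr
      have b4 : |h r * l r| ≤ L * C * (1 + r ^ 3) := by
        rw [abs_mul]
        calc |h r| * |l r| ≤ C * (1 + r ^ 3) * L := mul_le_mul b1 b2 (abs_nonneg _) (by positivity)
          _ = L * C * (1 + r ^ 3) := by ring
      have b5 : |h1 r / 2| ≤ C * (1 + r ^ 3) := by
        rw [abs_div, abs_two]
        have : C * (1 + r ^ 2) ≤ 2 * (C * (1 + r ^ 3)) := by nlinarith [pow_pos hr 3]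
        linarith
      have b6 : B r = -(h r * l r) - h1 r / 2 := by simp only [hBdef]; ring
      rw [b6]
      refine (abs_sub _ _).trans ?_
      rw [abs_neg]
      linarith
    · -- Gr1 B1
      have b1 := hgr' r hr
      have b2 := hl r hr
      have b3 := (hgr r hr.le).2
      have b4 := F.phiBd r hr
      have b5 := heta r hr
      rw [zero_add] at b4
      obtain ⟨p1, p2, p3, p4, p5, p6⟩ := hp r hr
      set W := 1 / r + r ^ 3 with hW
      have hW0 : 0 < W := by positivity
      have q0 : |h r| ≤ C * (2 * W) := b1.trans (by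
        apply mul_le_mul_of_nonneg_left _ hC.le
        linarith)
      have q1 : |h r| / r ≤ C * (2 * W) := by
        rw [div_le_iff₀ hr]
        refine b1.trans ?_
        have : (1 : ℝ) + r ^ 3 ≤ 2 * W * r := by
          have e : 2 * W * r = 2 + 2 * r ^ 4 := by
            rw [hW]
            field_simp
          rw [e]
          nlinarith [sq_nonneg (r ^ 2 - r), sq_nonneg (r - 1), sq_nonneg (r^2 - 1), hr]
        calc C * (1 + r ^ 3) ≤ C * (2 * W * r) := mul_le_mul_of_nonneg_left this hC.le
          _ = C * (2 * W) * r := by ring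
      have q2 : |h1 r| ≤ C * (2 * W) := b3.trans (by
        apply mul_le_mul_of_nonneg_left _ hC.le
        linarith)
      have q3 : |h1 r| / r ≤ C * (2 * W) := by
        rw [div_le_iff₀ hr]
        refine b3.trans ?_
        have : (1 : ℝ) + r ^ 2 ≤ 2 * W * r := by
          have e : 2 * W * r = 2 + 2 * r ^ 4 := by
            rw [hW]
            field_simp
          rw [e]
          nlinarith [sq_nonneg (r ^ 2 - 1), sq_nonneg r]
        calc C * (1 + r ^ 2) ≤ C * (2 * W * r) := mul_le_mul_of_nonneg_left this hC.le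
          _ = C * (2 * W) * r := by ring
      have e0 : s1 r / s r = l r + 1 / r := by simp only [hldef]; ring
      have e1 : B1 r = h r * phi 0 s r + h r * l r ^ 2 + 2 * (h r / r * l r) + η r + h1 r / r := by
        simp only [hB1def]
        rw [e0]
        field_simp
        ring
      have t1 : |h r * phi 0 s r| ≤ C * (1 + Mf s) * 2 * W := by
        rw [abs_mul]
        calc |h r| * |phi 0 s r| ≤ |h r| * ((1 + Mf s) / r) :=
              mul_le_mul_of_nonneg_left b4 (abs_nonneg _)
          _ = |h r| / r * (1 + Mf s) := by ring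
          _ ≤ C * (2 * W) * (1 + Mf s) := mul_le_mul_of_nonneg_right q1 (by linarith)
          _ = C * (1 + Mf s) * 2 * W := by ring
      have t2 : |h r * l r ^ 2| ≤ L ^ 2 * C * 2 * W := by
        rw [abs_mul, abs_of_nonneg (sq_nonneg (l r))]
        calc |h r| * l r ^ 2 ≤ C * (2 * W) * L ^ 2 :=
              mul_le_mul q0 (hl2 r hr) (sq_nonneg _) (by positivity)
          _ = L ^ 2 * C * 2 * W := by ring
      have t3 : |2 * (h r / r * l r)| ≤ 2 * L * C * 2 * W := by
        rw [abs_mul, abs_two, abs_mul, abs_div, abs_of_pos hr]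
        have : |h r| / r * |l r| ≤ C * (2 * W) * L :=
          mul_le_mul q1 b2 (abs_nonneg _) (by positivity)
        calc 2 * (|h r| / r * |l r|) ≤ 2 * (C * (2 * W) * L) := by linarith
          _ = 2 * L * C * 2 * W := by ring
      have t4 : |η r| ≤ E * W := b5.trans (le_mul_of_one_le_right hE p1)
      have t5 : |h1 r / r| ≤ 2 * C * W := by
        rw [abs_div, abs_of_pos hr]
        linarith
      rw [e1]
      have tt : |h r * phi 0 s r + h r * l r ^ 2 + 2 * (h r / r * l r) + η r + h1 r / r| ≤
          |h r * phi 0 s r| + |h r * l r ^ 2| + |2 * (h r / r * l r)| + |η r| + |h1 r / r| := by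
        refine (abs_add_le _ _).trans ?_
        refine add_le_add ((abs_add_le _ _).trans ?_) le_rfl
        refine add_le_add ((abs_add_le _ _).trans ?_) le_rfl
        exact add_le_add (abs_add_le _ _) le_rfl
      refine tt.trans ?_
      have e9 : (C * (1 + Mf s) * 2 + L ^ 2 * C * 2 + 2 * L * C * 2 + E + 2 * C) * W =
        C * (1 + Mf s) * 2 * W + L ^ 2 * C * 2 * W + 2 * L * C * 2 * W + E * W + 2 * C * W := by
        ring
      rw [e9]
      linarith
    · -- grq
      have hh := (hMult.pos r hr).ne'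
      have b1 := hgr' r hr
      obtain ⟨p1, p2, p3, p4, p5, p6⟩ := hp r hr
      have e1 : (B r + h1 r / 2) ^ 2 / h r = h r * l r ^ 2 := by
        simp only [hBdef]
        field_simp
        ring
      simp only
      rw [e1, abs_mul, abs_of_nonneg (sq_nonneg (l r))]
      calc |h r| * l r ^ 2 ≤ C * (1 + r ^ 3) * L ^ 2 :=
              mul_le_mul b1 (hl2 r hr) (sq_nonneg _) (by positivity)
        _ ≤ C * (2 * (1 / r + r ^ 3)) * L ^ 2 := by
          apply mul_le_mul_of_nonneg_right _ (sq_nonneg L)
          apply mul_le_mul_of_nonneg_left _ hC.le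
          linarith
        _ = L ^ 2 * C * 2 * (1 / r + r ^ 3) := by ring
  have htest := hF.test h h1 B B1 hMult hFlux
  -- the integral of the one-body term
  have hηint : Integrable η ν := by
    refine Integrable.mono' (integrable_const E) (hmeas _ hH.etacont) ?_
    filter_upwards [hpos] with r hr
    exact heta r hr
  have hVintν : Integrable (fun r => ∫ t, h t / max r t ∂ν) ν := by
    have e1 : (fun r => -K / Mf s + V0 - η r) =ᵐ[ν] fun r => ∫ t, h t / max r t ∂ν := by
      filter_upwards [hpos] with r hr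
      rw [hetaV r hr]
      ring
    exact ((integrable_const _).sub hηint).congr e1
  have hKfint : ∫ r, Kf h h1 B B1 r ∂ν = -∫ r, (∫ t, h t / max r t ∂ν) ∂ν := by
    have e1 : ∫ r, Kf h h1 B B1 r ∂ν = ∫ r, ((Jf s r * h r - Mf s * (h r / r)) +
        (-K / Mf s + V0 - ∫ t, h t / max r t ∂ν)) ∂ν := by
      refine integral_congr_ae ?_
      filter_upwards [hpos] with r hr
      rw [hKf r hr, hetaV r hr]
      ring
    have i1 : Integrable (fun r => Jf s r * h r - Mf s * (h r / r)) ν :=
      hH.intJ.sub (hint.const_mul _)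
    have i2 : Integrable (fun r => -K / Mf s + V0 - ∫ t, h t / max r t ∂ν) ν :=
      (integrable_const _).sub hVintν
    rw [e1, integral_add i1 i2,
      integral_sub hH.intJ (hint.const_mul _), integral_const_mul,
      integral_sub (integrable_const _) hVintν, integral_const, ← hK, ← hV0]
    have hm : ν.real univ = Mf s := hF.mass
    rw [hm, smul_eq_mul]
    field_simp
    ring
  -- symmetry
  have hDh : Dh h ν = ∫ r, (∫ t, h t / max r t ∂ν) ∂ν := by
    unfold Dh
    rw [integral_integral_swap]
    · refine integral_congr_ae (Eventually.of_forall fun r => ?_)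
      simp only
      congr 1
      funext t
      rw [max_comm]
    · have i1 : Integrable (fun p : ℝ × ℝ => h p.1 / p.1) (ν.prod ν) :=
        hint.comp_fst ν
      have hpos2 : ∀ᵐ p ∂(ν.prod ν), 0 < p.1 ∧ 0 < p.2 := by
        have a1 : ∀ᵐ p ∂(ν.prod ν), 0 < p.1 := Measure.quasiMeasurePreserving_fst.ae hpos
        have a2 : ∀ᵐ p ∂(ν.prod ν), 0 < p.2 := Measure.quasiMeasurePreserving_snd.ae hpos
        filter_upwards [a1, a2] with p h1 h2 using ⟨h1, h2⟩
      have hres2 : (ν.prod ν).restrict (Ioi 0 ×ˢ Ioi 0) = ν.prod ν := by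
        rw [Measure.restrict_eq_self_of_ae_mem]
        filter_upwards [hpos2] with p hp
        exact ⟨hp.1, hp.2⟩
      refine i1.mono' ?_ ?_
      · rw [← hres2]
        refine ContinuousOn.aestronglyMeasurable ?_ (measurableSet_Ioi.prod measurableSet_Ioi)
        refine ContinuousOn.div ?_ ?_ ?_
        · exact hhc.comp continuousOn_fst fun p hp => hp.1
        · exact (continuous_fst.max continuous_snd).continuousOn
        · intro p hp
          exact (lt_max_of_lt_left (mem_Ioi.1 hp.1)).ne'
      · filter_upwards [hpos2] with p hp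
        have h2 : 0 < max p.1 p.2 := lt_max_of_lt_left hp.1
        simp only [Function.uncurry]
        rw [Real.norm_eq_abs, abs_div, abs_of_pos h2, abs_of_pos (hMult.pos _ hp.1)]
        exact div_le_div_of_nonneg_left (hMult.pos _ hp.1).le hp.1 (le_max_left _ _)
  -- positivity
  have hνne : ν ≠ 0 := by
    intro h0
    have := hF.mass
    rw [h0] at this
    simp at this
    linarith
  have hVpos : ∀ r, 0 < r → 0 < ∫ t, h t / max r t ∂ν := by
    intro r hr
    rw [integral_pos_iff_support_of_nonneg_ae _ (hVint r hr)]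
    · have : (Function.support fun t => h t / max r t) ∈ ae ν := by
        filter_upwards [hpos] with t ht
        have h2 : 0 < max r t := lt_max_of_lt_left hr
        exact (div_pos (hMult.pos t ht) h2).ne'
      rw [measure_congr (eventuallyEq_univ.2 this)]
      exact pos_iff_ne_zero.2 fun h0 => hνne (Measure.measure_univ_eq_zero.1 h0)
    · filter_upwards [hpos] with t ht
      have h2 : 0 < max r t := lt_max_of_lt_left hr
      exact (div_pos (hMult.pos t ht) h2).le
  have hDpos : 0 < Dh h ν := by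
    rw [hDh, integral_pos_iff_support_of_nonneg_ae _ hVintν]
    · have : (Function.support fun r => ∫ t, h t / max r t ∂ν) ∈ ae ν := by
        filter_upwards [hpos] with r hr
        exact (hVpos r hr).ne'
      rw [measure_congr (eventuallyEq_univ.2 this)]
      exact pos_iff_ne_zero.2 fun h0 => hνne (Measure.measure_univ_eq_zero.1 h0)
    · filter_upwards [hpos] with r hr
      exact (hVpos r hr).le
  rw [hKfint, ← hDh] at htest
  nlinarith

end Pool.Agent.H10.HN
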